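import Pool.Agent.TFJ.Stmts

set_option autoImplicit false

/-!
# TFJ.NKL
-/

namespace Pool.Agent.TFJ.H19

open Pool.Agent.TFJ

open scoped BigOperators

theorem coe_finRotate_iter (P i : ℕ) (j : Fin P) :
    (((finRotate P)^[i] j : Fin P) : ℕ) = ((j : ℕ) + i) % P := by
  induction i with
  | zero => simp [Nat.mod_eq_of_lt j.isLt]
  | succ i ih =>
    rw [Function.iterate_succ_apply']
    obtain ⟨n, rfl⟩ : ∃ n, P = n + 1 := ⟨P - 1, by have := j.isLt; omega⟩
    rw [finRotate_succ_apply, Fin.val_add, ih, Fin.val_one']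
    rw [← Nat.add_mod, Nat.add_assoc]

theorem rot_iter {M : Type} {P : ℕ} (x : Fin P → M) (i : ℕ) :
    rot^[i] x = fun j => x ((finRotate P)^[i] j) := by
  induction i generalizing x with
  | zero => rfl
  | succ i ih =>
    rw [Function.iterate_succ_apply, ih]
    funext j
    rw [Function.iterate_succ_apply']
    rfl

theorem rot_iter_self {M : Type} {P : ℕ} (x : Fin P → M) : rot^[P] x = x := by
  rw [rot_iter]
  funext j
  congr 1
  apply Fin.ext
  rw [coe_finRotate_iter, Nat.add_mod_right, Nat.mod_eq_of_lt j.isLt]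

/-- the rotation as a permutation of the words -/
def rotE (ι : Type) (P : ℕ) : Equiv.Perm (Fin P → ι) where
  toFun := rot
  invFun := fun w j => w ((finRotate P).symm j)
  left_inv := fun w => by
    funext j
    exact congrArg w (Equiv.apply_symm_apply (finRotate P) j)
  right_inv := fun w => by
    funext j
    exact congrArg w (Equiv.symm_apply_apply (finRotate P) j)

theorem coe_rotE (ι : Type) (P : ℕ) : (rotE ι P : (Fin P → ι) → (Fin P → ι)) = rot := rfl

theorem rot_comp {M N : Type} {P : ℕ} (f : M → N) (x : Fin P → M) :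
    rot (fun j => f (x j)) = fun j => f (rot x j) := rfl

theorem rot_comp_iter {M N : Type} {P : ℕ} (f : M → N) (x : Fin P → M) (i : ℕ) :
    rot^[i] (fun j => f (x j)) = fun j => f (rot^[i] x j) := by
  rw [rot_iter, rot_iter]

theorem nkl (rot' : RotStmt) (orb : OrbStmt) (per : PerStmt) : NklStmt := by
  classical
  intro S G ι _ _ _ x d g₀ p k n hp hkn hno
  have hnot : ∀ w : Fin (p ^ n) → ι,
      (if IsConj g₀ (wprod fun j => d (w j)) then wprod (fun j => x (w j)) else 0) = (0 : S) ∨
        p ^ k ∣ Function.minimalPeriod (rotE ι (p ^ n)) w := by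
    intro w
    have hper : Function.IsPeriodicPt (rotE ι (p ^ n)) (p ^ n) w := by
      rw [coe_rotE]
      exact rot_iter_self w
    obtain ⟨i, hi, hmi⟩ := (Nat.dvd_prime_pow hp).1 hper.minimalPeriod_dvd
    rcases Nat.lt_or_ge i k with hik | hik
    · left
      rw [if_neg]
      have hper2 : rot^[p ^ i] w = w := by
        have := Function.isPeriodicPt_minimalPeriod (rotE ι (p ^ n)) w
        rw [hmi, coe_rotE] at this
        exact this
      obtain ⟨v, hv⟩ := per G (p ^ n) (p ^ i) (p ^ (n - i)) (fun j => d (w j))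
        (by rw [← pow_add]; congr 1; omega)
        (by rw [rot_comp_iter, hper2])
      rw [hv]
      exact hno v (n - i) (by omega)
    · right
      rw [hmi]
      exact pow_dvd_pow p hik
  obtain ⟨h, hh⟩ := orb (Fin (p ^ n) → ι) (S ⧸ Comm S) (rotE ι (p ^ n))
    (fun w => QuotientAddGroup.mk
      (if IsConj g₀ (wprod fun j => d (w j)) then wprod (fun j => x (w j)) else 0))
    (p ^ k)
    (by
      intro w
      rw [coe_rotE]
      have e1 : (fun j => d (rot w j)) = rot (fun j => d (w j)) := rfl
      have e2 : (fun j => x (rot w j)) = rot (fun j => x (w j)) := rfl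
      rw [e1, e2]
      have hc := rot'.2 G (p ^ n) (fun j => d (w j))
      have hm := rot'.1 S (p ^ n) (fun j => x (w j))
      by_cases h1 : IsConj g₀ (wprod fun j => d (w j))
      · rw [if_pos (h1.trans hc), if_pos h1]
        apply (QuotientAddGroup.eq_iff_sub_mem).2
        have := (Comm S).neg_mem hm
        rwa [neg_sub] at this
      · rw [if_neg (fun h2 => h1 (h2.trans hc.symm)), if_neg h1])
    (by
      intro w
      rcases hnot w with h1 | h1
      · left
        rw [h1]
        rfl
      · right
        exact h1)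
  obtain ⟨s, rfl⟩ := QuotientAddGroup.mk_surjective h
  refine ⟨s, ?_⟩
  apply (QuotientAddGroup.eq_iff_sub_mem).1
  have e3 := map_sum (QuotientAddGroup.mk' (Comm S))
    (fun w : Fin (p ^ n) → ι =>
      (if IsConj g₀ (wprod fun j => d (w j)) then wprod (fun j => x (w j)) else (0 : S)))
    Finset.univ
  have e4 : QuotientAddGroup.mk' (Comm S) (p ^ k • s)
      = p ^ k • (QuotientAddGroup.mk s : S ⧸ Comm S) := map_nsmul _ _ _
  exact (e3.trans hh).trans e4.symm

end Pool.Agent.TFJ.H19
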