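import Pool.Agent.Helper1_TFJ.TWB

set_option autoImplicit false

/-!
# TFJ.RSC: over a finitely presented group the basis of a twisted group algebra can be rescaled such
that the values of the cocycle lie in a finitely generated group
-/

namespace Pool.Agent.TFJ.H19

open Pool.Agent.TFJ

open scoped BigOperators

section

variable {F G S : Type} [Field F] [Group G] [Ring S] [Algebra F S] {α : G → G → Fˣ} {u : G → S}

/-- `u g` as a unit -/
noncomputable def uU (hT : Twisted α u) (g : G) : Sˣ where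
  val := u g
  inv := (H1.u_inv hT g).choose
  val_inv := (H1.u_inv hT g).choose_spec.1
  inv_val := (H1.u_inv hT g).choose_spec.2

theorem val_uU (hT : Twisted α u) (g : G) : ((uU hT g : Sˣ) : S) = u g := rfl

/-- the homomorphism of the free group -/
noncomputable def psi (hT : Twisted α u) {n : ℕ} (φ : FreeGroup (Fin n) →* G) :
    FreeGroup (Fin n) →* Sˣ :=
  FreeGroup.lift fun i => uU hT (φ (FreeGroup.of i))

/-- the words whose image is a multiple of `u (φ w)` -/
def good (hT : Twisted α u) {n : ℕ} (φ : FreeGroup (Fin n) →* G) : Subgroup (FreeGroup (Fin n)) where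
  carrier := {w | ∃ l : Fˣ, ((psi hT φ w : Sˣ) : S) = (l : F) • u (φ w)}
  one_mem' := ⟨1, by rw [map_one, map_one, hT.one, Units.val_one, Units.val_one, one_smul]⟩
  mul_mem' := by
    rintro a b ⟨l, hl⟩ ⟨m, hm⟩
    refine ⟨l * m * α (φ a) (φ b), ?_⟩
    rw [map_mul, Units.val_mul, hl, hm, smul_mul_assoc, mul_smul_comm, hT.mul, map_mul, smul_smul,
      smul_smul, Units.val_mul, Units.val_mul, mul_assoc]
  inv_mem' := by
    rintro a ⟨l, hl⟩
    refine ⟨(l * α (φ a) (φ a)⁻¹)⁻¹, ?_⟩
    have h1 : ((psi hT φ a : Sˣ) : S) * ((((l * α (φ a) (φ a)⁻¹)⁻¹ : Fˣ) : F) • u (φ a⁻¹)) = 1 := by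
      rw [hl, smul_mul_assoc, mul_smul_comm, map_inv, hT.mul, smul_smul, smul_smul, mul_inv_cancel,
        hT.one, ← Units.val_mul, ← Units.val_mul]
      have h2 : l * (l * α (φ a) (φ a)⁻¹)⁻¹ * α (φ a) (φ a)⁻¹ = 1 := by
        rw [mul_inv_rev]
        rw [mul_comm (α (φ a) (φ a)⁻¹)⁻¹ l⁻¹, ← mul_assoc, mul_inv_cancel, one_mul,
          inv_mul_cancel]
      rw [h2, Units.val_one, one_smul]
    rw [map_inv]
    exact Units.inv_eq_of_mul_eq_one_right h1

theorem good_top (hT : Twisted α u) {n : ℕ} (φ : FreeGroup (Fin n) →* G) :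
    ∀ w, ∃ l : Fˣ, ((psi hT φ w : Sˣ) : S) = (l : F) • u (φ w) := by
  intro w
  have h : w ∈ good hT φ := by
    have h1 : (⊤ : Subgroup (FreeGroup (Fin n))) ≤ good hT φ := by
      rw [← FreeGroup.closure_range_of, Subgroup.closure_le]
      rintro _ ⟨i, rfl⟩
      refine ⟨1, ?_⟩
      rw [psi, FreeGroup.lift_apply_of, val_uU, Units.val_one, one_smul]
    exact h1 (Subgroup.mem_top w)
  exact h

/-- the words whose image is a scalar of `Λ` -/
def scal (hT : Twisted α u) {n : ℕ} (φ : FreeGroup (Fin n) →* G) (L : Subgroup Fˣ) :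
    Subgroup (FreeGroup (Fin n)) where
  carrier := {w | ∃ l ∈ L, ((psi hT φ w : Sˣ) : S) = (l : F) • (1 : S)}
  one_mem' := ⟨1, L.one_mem, by rw [map_one, Units.val_one, Units.val_one, one_smul]⟩
  mul_mem' := by
    rintro a b ⟨l, hlL, hl⟩ ⟨m, hmL, hm⟩
    refine ⟨l * m, L.mul_mem hlL hmL, ?_⟩
    rw [map_mul, Units.val_mul, hl, hm, smul_mul_assoc, one_mul, smul_smul, Units.val_mul]
  inv_mem' := by
    rintro a ⟨l, hlL, hl⟩
    refine ⟨l⁻¹, L.inv_mem hlL, ?_⟩
    rw [map_inv]
    apply Units.inv_eq_of_mul_eq_one_right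
    rw [hl, smul_mul_assoc, one_mul, smul_smul, ← Units.val_mul, mul_inv_cancel, Units.val_one,
      one_smul]

theorem scal_normal (hT : Twisted α u) {n : ℕ} (φ : FreeGroup (Fin n) →* G) (L : Subgroup Fˣ) :
    (scal hT φ L).Normal := by
  constructor
  rintro w ⟨l, hlL, hl⟩ g
  refine ⟨l, hlL, ?_⟩
  rw [map_mul, map_mul, Units.val_mul, Units.val_mul, hl, mul_smul_comm, mul_one, smul_mul_assoc,
    map_inv, Units.mul_inv]

/-- **RSC** -/
theorem rsc (hT : Twisted α u) (hG : Group.IsFinitelyPresented G) :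
    ∃ (Y : Finset Fˣ) (α' : G → G → Fˣ) (l : G → Fˣ),
      Twisted α' (fun g => (l g : F) • u g) ∧
        ∀ g h, α' g h ∈ Subgroup.closure (Y : Set Fˣ) := by
  classical
  obtain ⟨n, φ, hφ, T, hTfin, hker⟩ := hG.out
  -- the scalars of the relators
  choose c hc using good_top hT φ
  let Y : Finset Fˣ := hTfin.toFinset.image c
  have hrel : ∀ w : FreeGroup (Fin n), φ w = 1 →
      ∃ l ∈ Subgroup.closure (Y : Set Fˣ), ((psi hT φ w : Sˣ) : S) = (l : F) • (1 : S) := by
    intro w hw
    have h1 : Subgroup.normalClosure T ≤ scal hT φ (Subgroup.closure (Y : Set Fˣ)) := by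
      haveI := scal_normal hT φ (Subgroup.closure (Y : Set Fˣ))
      apply Subgroup.normalClosure_le_normal
      intro r hr
      refine ⟨c r, Subgroup.subset_closure ?_, ?_⟩
      · exact Finset.mem_coe.2 (Finset.mem_image_of_mem c (hTfin.mem_toFinset.2 hr))
      · have h2 : φ r = 1 := by
          have h3 : r ∈ φ.ker := by
            rw [← hker]
            exact Subgroup.subset_normalClosure hr
          exact h3
        rw [hc r, h2, hT.one]
    have h4 : w ∈ Subgroup.normalClosure T := by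
      rw [hker]
      exact hw
    exact h1 h4
  -- a section
  have hsec : ∃ w : G → FreeGroup (Fin n), w 1 = 1 ∧ ∀ g, φ (w g) = g := by
    choose w hw using hφ
    refine ⟨fun g => if g = 1 then 1 else w g, if_pos rfl, fun g => ?_⟩
    by_cases hg : g = 1
    · simp only [hg, if_true, map_one]
    · simp only [hg, if_false, hw]
  obtain ⟨w, hw1, hw⟩ := hsec
  have hval : ∀ g, ((psi hT φ (w g) : Sˣ) : S) = (c (w g) : F) • u g := by
    intro g
    rw [hc, hw]
  have hab : ∀ g h : G, ∃ a ∈ Subgroup.closure (Y : Set Fˣ),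
      ((psi hT φ (w g) : Sˣ) : S) * ((psi hT φ (w h) : Sˣ) : S)
        = ((a : Fˣ) : F) • ((psi hT φ (w (g * h)) : Sˣ) : S) := by
    intro g h
    obtain ⟨a, haL, ha⟩ := hrel (w g * w h * (w (g * h))⁻¹) (by
      rw [map_mul, map_mul, map_inv, hw, hw, hw, mul_inv_cancel])
    refine ⟨a, haL, ?_⟩
    have h1 : psi hT φ (w g) * psi hT φ (w h)
        = psi hT φ (w g * w h * (w (g * h))⁻¹) * psi hT φ (w (g * h)) := by
      rw [← map_mul, ← map_mul, inv_mul_cancel_right]
    have h2 := congrArg (fun z : Sˣ => (z : S)) h1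
    simp only [Units.val_mul] at h2
    rw [h2, ha, smul_mul_assoc, one_mul]
  choose a haL ha using hab
  refine ⟨Y, a, fun g => c (w g), ⟨?_, ?_, ?_, ?_⟩, haL⟩
  · rw [← hval, hw1, map_one, Units.val_one]
  · intro g h
    rw [← hval, ← hval, ← hval]
    exact ha g h
  · have h1 := hT.indep.units_smul fun g => c (w g)
    exact h1
  · intro x
    have h1 : Submodule.span F (Set.range u)
        ≤ Submodule.span F (Set.range fun g => (c (w g) : F) • u g) := by
      rw [Submodule.span_le]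
      rintro _ ⟨g, rfl⟩
      have h2 : u g = (((c (w g))⁻¹ : Fˣ) : F) • ((c (w g) : F) • u g) := by
        rw [smul_smul, ← Units.val_mul, inv_mul_cancel, Units.val_one, one_smul]
      have h3 : (((c (w g))⁻¹ : Fˣ) : F) • ((c (w g) : F) • u g)
          ∈ Submodule.span F (Set.range fun g => (c (w g) : F) • u g) :=
        Submodule.smul_mem _ _ (Submodule.subset_span ⟨g, rfl⟩)
      rw [← h2] at h3
      exact h3
    exact h1 (hT.span x)

end

end Pool.Agent.TFJ.H19
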