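import Pool.Agent.Helper22_TFJ.ROO
import Pool.Agent.Helper39_TFJ.TRL
import Pool.Agent.Helper36_TFJ.DSP
import Pool.Agent.Helper77_TFJ.STA
import Pool.Agent.Helper59_TFJ.STB
import Pool.Agent.Helper6_TFJ.NEA
import Pool.Agent.Helper50_TFJ.CRN
import Pool.Agent.Helper49_TFJ.MAT
import Pool.Agent.Helper80_TFJ.DIV
import Pool.Agent.Helper89_TFJ.EXW
import Pool.Agent.Helper23_TFJ.ROT
import Pool.Agent.Helper45_TFJ.WPM
import Pool.Agent.Helper92_TFJ.TWC
import Pool.Agent.Helper1_TFJ.TWB
import Pool.Agent.Helper19_TFJ.FIN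
import Pool.Agent.Helper19_TFJ.NKL
import Pool.Agent.Helper19_TFJ.RSC

set_option autoImplicit false

/-!
# TFJ: composition
-/

namespace Pool.Agent.TFJ.H19

open Pool.Agent.TFJ

open scoped BigOperators

theorem roo_all : RooStmt := H22.roo (H39.trl (H36.dsp H77.sta H59.stb (H6.nea H77.sta)))

/-- the two parts of the statement on graded rings -/
theorem graded_of (fin : FinStmt) {G E : Type} [Group G] [MetricSpace E] [MulAction G E]
    (hGE : InjAction G E) {S : Type} [Ring S] {A : G → AddSubgroup S} (hA : Graded A)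
    (n : ℕ) (e : Matrix (Fin n) (Fin n) S) (c : G →₀ S) (g₀ : G) (he : e * e = e)
    (hc : ∀ g, c g ∈ A g) (hs : (c.sum fun _ z => z) = Matrix.trace e)
    (hg : ∀ k : ℕ, 1 ≤ k → g₀ ^ k ≠ 1) :
    (∀ N : ℕ, 1 ≤ N → DivBy S N (clPart g₀ c)) ∧
      ∀ N : ℕ, 1 ≤ N → (N : S) = 0 → clPart g₀ c ∈ Comm S := by
  have h1 : ∀ N : ℕ, 1 ≤ N → DivBy S N (clPart g₀ c) := fun N hN =>
    fin G S A hA n e c g₀ he hc hs (roo_all G E hGE g₀ hg) N hN
  refine ⟨h1, ?_⟩
  intro N hN hN0
  obtain ⟨s, hsN⟩ := h1 N hN
  rwa [nsmul_eq_mul, hN0, zero_mul, sub_zero] at hsN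

section twisted

variable {F G S : Type} [Field F] [Group G] [Ring S] [Algebra F S] {α : G → G → Fˣ} {u : G → S}

/-- the grading of a twisted group algebra -/
def twA (F : Type) {G S : Type} [Field F] [Ring S] [Algebra F S] (u : G → S) (g : G) :
    AddSubgroup S := (Submodule.span F {u g}).toAddSubgroup

theorem mem_twA {g : G} {x : S} : x ∈ twA F u g ↔ ∃ y : F, y • u g = x :=
  Submodule.mem_span_singleton

/-- the homogeneous components of `sum_g a_g u_g` -/
noncomputable def dec (u : G → S) (a : G →₀ F) : G →₀ S :=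
  Finsupp.onFinset a.support (fun g => a g • u g) (by
    intro g hg
    rw [Finsupp.mem_support_iff]
    intro h
    apply hg
    rw [h, zero_smul])

theorem dec_apply (a : G →₀ F) (g : G) : dec u a g = a g • u g := rfl

theorem dec_support (hT : Twisted α u) (a : G →₀ F) : (dec u a).support = a.support := by
  ext g
  rw [Finsupp.mem_support_iff, Finsupp.mem_support_iff, dec_apply, Ne, smul_eq_zero,
    or_iff_left (hT.indep.ne_zero g)]

theorem dec_sum (hT : Twisted α u) (a : G →₀ F) :
    ((dec u a).sum fun _ z => z) = a.sum fun g y => y • u g := by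
  rw [Finsupp.sum, Finsupp.sum, dec_support hT]
  rfl

theorem dec_mem (a : G →₀ F) (g : G) : dec u a g ∈ twA F u g :=
  mem_twA.2 ⟨a g, rfl⟩

open Classical in
theorem clPart_dec (hT : Twisted α u) (a : G →₀ F) (g₀ : G) :
    clPart g₀ (dec u a) = ∑ h ∈ a.support.filter (fun h => IsConj g₀ h), a h • u h := by
  unfold clPart
  rw [dec_support hT]
  rfl

theorem twisted_graded (hT : Twisted α u) : Graded (twA F u) := by
  classical
  refine ⟨?_, ?_, ?_, ?_⟩
  · exact mem_twA.2 ⟨1, by rw [one_smul, hT.one]⟩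
  · intro g h x y hx hy
    obtain ⟨a, rfl⟩ := mem_twA.1 hx
    obtain ⟨b, rfl⟩ := mem_twA.1 hy
    refine mem_twA.2 ⟨a * b * (α g h : F), ?_⟩
    rw [smul_mul_assoc, mul_smul_comm, hT.mul, smul_smul, smul_smul, mul_assoc]
  · intro x
    obtain ⟨a, ha⟩ := Finsupp.mem_span_range_iff_exists_finsupp.1 (hT.span x)
    exact ⟨dec u a, dec_mem a, (dec_sum hT a).trans ha⟩
  · intro c hc hs
    choose y hy using fun g => mem_twA.1 (hc g)
    let a : G →₀ F := Finsupp.onFinset c.support (fun g => if c g = 0 then 0 else y g) (by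
      intro g hg
      rw [Finsupp.mem_support_iff]
      intro h
      exact hg (if_pos h))
    have ha : ∀ g, a g • u g = c g := by
      intro g
      have h1 : a g = if c g = 0 then 0 else y g := rfl
      rw [h1]
      by_cases h : c g = 0
      · rw [if_pos h, zero_smul, h]
      · rw [if_neg h, hy]
    have hac : c = dec u a := by
      ext g
      rw [dec_apply, ha]
    have h2 : (a.sum fun g y => y • u g) = 0 := by
      rw [← dec_sum hT, ← hac, hs]
    have h3 : a = 0 := by
      have h4 := linearIndependent_iff.1 hT.indep a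
      apply h4
      rw [Finsupp.linearCombination_apply]
      exact h2
    rw [hac, h3]
    ext g
    rw [dec_apply, Finsupp.zero_apply, zero_smul, Finsupp.zero_apply]

open Classical in
/-- the statement on twisted group algebras over a field -/
theorem twisted_of (fin : FinStmt) (twc : TwcStmt) [Group.IsFinitelyPresented G]
    {E : Type} [MetricSpace E] [MulAction G E] (hGE : InjAction G E) (hT : Twisted α u)
    (n : ℕ) (e : Matrix (Fin n) (Fin n) S) (a : G →₀ F) (g₀ : G) (he : e * e = e)
    (hs : Matrix.trace e = a.sum fun h y => y • u h) (hg : ∀ k : ℕ, 1 ≤ k → g₀ ^ k ≠ 1) :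
    ∑ h ∈ a.support.filter (fun h => IsConj g₀ h), a h • u h ∈ Comm S := by
  obtain ⟨p, hp⟩ := CharP.exists F
  by_cases hp0 : p = 0
  · subst hp0
    haveI : CharZero F := CharP.charP_to_charZero F
    obtain ⟨Y, α', l, hT', hY⟩ := rsc hT (inferInstance : Group.IsFinitelyPresented G)
    -- the coefficients with respect to the new basis
    let a' : G →₀ F := Finsupp.onFinset a.support (fun g => a g * ((l g)⁻¹ : Fˣ)) (by
      intro g hg
      rw [Finsupp.mem_support_iff]
      intro h
      apply hg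
      rw [h, zero_mul])
    have ha' : ∀ g, a' g = a g * ((l g)⁻¹ : Fˣ) := fun g => rfl
    have hsm : ∀ g, a' g • ((l g : F) • u g) = a g • u g := by
      intro g
      rw [ha', smul_smul, mul_assoc, ← Units.val_mul, inv_mul_cancel, Units.val_one, mul_one]
    have hsupp : a'.support = a.support := by
      ext g
      rw [Finsupp.mem_support_iff, Finsupp.mem_support_iff, ha', Ne, mul_eq_zero,
        or_iff_left (Units.ne_zero _)]
    have h1 := twc F G S α' (fun g => (l g : F) • u g) Y hT' hY n e a' g₀ he (by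
      rw [hs, Finsupp.sum, Finsupp.sum, hsupp]
      exact Finset.sum_congr rfl fun g _ => (hsm g).symm) (roo_all G E hGE g₀ hg)
    rw [hsupp] at h1
    have h2 : ∑ h ∈ a.support.filter (fun h => IsConj g₀ h), a' h • ((l h : F) • u h)
        = ∑ h ∈ a.support.filter (fun h => IsConj g₀ h), a h • u h :=
      Finset.sum_congr rfl fun g _ => hsm g
    rw [← h2]
    exact h1
  · have h1 := graded_of fin hGE (twisted_graded hT) n e (dec u a) g₀ he (dec_mem a)
      ((dec_sum hT a).trans hs.symm) hg
    have h2 := h1.2 p (Nat.one_le_iff_ne_zero.2 hp0) (by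
      have h3 : (p : F) = 0 := (CharP.cast_eq_zero_iff F p p).2 (dvd_refl p)
      have h4 : (algebraMap F S) (p : F) = 0 := by rw [h3, map_zero]
      rwa [map_natCast] at h4)
    rwa [clPart_dec hT] at h2

end twisted

end Pool.Agent.TFJ.H19
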