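import Pool.Agent.TFJ.Stmts

set_option autoImplicit false

/-!
# TFJ.FIN
-/

namespace Pool.Agent.TFJ.H19

open Pool.Agent.TFJ

open scoped BigOperators

open Classical in
theorem trace_clPart {G S : Type} [Group G] [Ring S] (n : ℕ) (g₀ : G)
    (C : G →₀ Matrix (Fin n) (Fin n) S) :
    Matrix.trace (clPart g₀ C)
      = ∑ k : C.support, if IsConj g₀ (k : G) then Matrix.trace (C k) else 0 := by
  unfold clPart
  rw [Matrix.trace_sum, Finset.sum_filter]
  rw [← Finset.sum_coe_sort C.support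
    (fun g => if IsConj g₀ g then Matrix.trace (C g) else 0)]

theorem fin (ide : IdeStmt) (crn : CrnStmt) (mat : MatStmt) (gcp : GcpStmt) : FinStmt := by
  classical
  intro G S _ _ A hA n e c g₀ he hc hsum hfew N hN
  obtain ⟨⟨B, hB, htr⟩, hdiv⟩ := mat G S A hA n
  obtain ⟨C, hCB, hCsum⟩ := hB.span e
  have h1 : DivBy (Matrix (Fin n) (Fin n) S) N (clPart g₀ C) :=
    crn _ _ (fun p k hp => ide G _ B hB e C g₀ he hCB hCsum hfew p k hp) N hN
  have h2 := hdiv N _ h1
  have h3 := gcp G S C.support A hA (fun k => Matrix.trace (C k)) (fun k => (k : G)) c g₀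
    (fun k => htr _ _ (hCB k)) hc (by
      rw [hsum, ← hCsum, Finsupp.sum, Matrix.trace_sum]
      rw [← Finset.sum_coe_sort C.support (fun g => Matrix.trace (C g))])
  rw [h3, ← trace_clPart n g₀ C]
  exact h2

end Pool.Agent.TFJ.H19
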