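import Pool.Agent.TFJ.Stmts

set_option autoImplicit false

namespace Pool.Agent.TFJ.H19

open Pool.Agent.TFJ

open scoped BigOperators

open Classical in
/-- class part as an additive map -/
noncomputable def cl {G S : Type} [Group G] [Ring S] (g₀ : G) : (G →₀ S) →+ S :=
  Finsupp.liftAddHom fun g => if IsConj g₀ g then AddMonoidHom.id S else 0

open Classical in
theorem cl_eq {G S : Type} [Group G] [Ring S] (g₀ : G) (c : G →₀ S) : cl g₀ c = clPart g₀ c := by
  unfold cl clPart
  rw [Finsupp.liftAddHom_apply, Finsupp.sum, Finset.sum_filter]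
  refine Finset.sum_congr rfl fun g _ => ?_
  by_cases h : IsConj g₀ g
  · simp only [if_pos h, AddMonoidHom.id_apply]
  · simp only [if_neg h, AddMonoidHom.zero_apply]

theorem gcp : GcpStmt := by
  classical
  intro G S κ _ _ _ A hA y δ c g₀ hy hc hs
  let c' : G →₀ S := ∑ k, Finsupp.single (δ k) (y k)
  have hc' : ∀ g, c' g ∈ A g := by
    intro g
    have h1 : c' g = ∑ k, (Finsupp.single (δ k) (y k)) g := Finsupp.finsetSum_apply _ _ _
    rw [h1]
    refine AddSubgroup.sum_mem _ fun k _ => ?_
    rw [Finsupp.single_apply]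
    by_cases h : δ k = g
    · rw [if_pos h, ← h]
      exact hy k
    · rw [if_neg h]
      exact (A g).zero_mem
  have hsum : ∀ c : G →₀ S, (c.sum fun _ z => z) = Finsupp.liftAddHom (fun _ => AddMonoidHom.id S) c := by
    intro c
    rfl
  have hcs : (c'.sum fun _ z => z) = ∑ k, y k := by
    rw [hsum, map_sum]
    refine Finset.sum_congr rfl fun k _ => ?_
    rw [Finsupp.liftAddHom_apply_single, AddMonoidHom.id_apply]
  have hd : c - c' = 0 := by
    apply hA.indep
    · intro g
      rw [Finsupp.sub_apply]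
      exact (A g).sub_mem (hc g) (hc' g)
    · rw [hsum, map_sub, ← hsum, ← hsum, hs, hcs, sub_self]
  have hcc : c = c' := sub_eq_zero.1 hd
  rw [← cl_eq, hcc, map_sum]
  refine Finset.sum_congr rfl fun k _ => ?_
  unfold cl
  rw [Finsupp.liftAddHom_apply_single]
  by_cases h : IsConj g₀ (δ k)
  · rw [if_pos h, if_pos h, AddMonoidHom.id_apply]
  · rw [if_neg h, if_neg h, AddMonoidHom.zero_apply]

end Pool.Agent.TFJ.H19
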