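import Pool.Agent.TFJ.Stmts

set_option autoImplicit false

namespace Pool.Agent.TFJ.H19

open Pool.Agent.TFJ

open scoped BigOperators

theorem ide (exw : ExwStmt) (nkl : NklStmt) (gcp : GcpStmt) (wpm : WpmStmt) : IdeStmt := by
  intro G S _ _ A hA e c g₀ he hc hs hfew p k hp
  obtain ⟨b, hb⟩ := hfew
  have hno : ∀ (h : G) (s : ℕ), (k + b) - k < s → ¬ IsConj g₀ (h ^ p ^ s) := by
    intro h s hsb hconj
    have h1 := hb h (p ^ s) hconj
    have h2 : s < p ^ s := Nat.lt_pow_self hp.one_lt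
    omega
  have hP : ∃ m, p ^ (k + b) = m + 1 := ⟨p ^ (k + b) - 1, by
    have := Nat.pos_of_ne_zero (pow_ne_zero (k + b) hp.ne_zero)
    omega⟩
  have hpow : e ^ (p ^ (k + b)) = e := by
    obtain ⟨m, hm⟩ := hP
    rw [hm]
    exact IsIdempotentElem.pow_succ_eq m he
  have hsum : (∑ i : c.support, c i) = e := by
    rw [← hs, Finsupp.sum]
    exact Finset.sum_coe_sort c.support (fun g => c g)
  have h3 := exw S c.support (fun i => c i) (p ^ (k + b))
  rw [hsum, hpow] at h3
  have h4 := gcp G S (Fin (p ^ (k + b)) → c.support) A hA (fun w => wprod fun j => c (w j))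
    (fun w => wprod fun j => (w j : G)) c g₀
    (fun w => wpm G S A hA _ _ _ fun j => hc _) hc (by rw [hs]; exact h3)
  rw [h4]
  exact nkl S G c.support (fun i => c i) (fun i => (i : G)) g₀ p k (k + b) hp
    (Nat.le_add_right k b) hno

end Pool.Agent.TFJ.H19
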